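import Pool.Agent.HIK.Stmts

/-! HIK, row FRK: the field `φ(K)(t)` consists of the quotients of the polynomials over the ring of
integers. -/

set_option autoImplicit false

namespace Pool.Agent.HIK.H80

open Polynomial NumberField Pool.Agent.MTL Pool.Agent.HIK

theorem tt_eq : tt = algebraMap (RatFunc ℚ) Om RatFunc.X := by
  unfold tt
  rw [IsScalarTower.algebraMap_apply ℚ[X] (RatFunc ℚ) Om, RatFunc.algebraMap_X]

theorem inj_alg : Function.Injective (algebraMap ℚ[X] Om) := by
  have h : (algebraMap ℚ[X] Om : ℚ[X] → Om) =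
      (algebraMap (RatFunc ℚ) Om) ∘ (algebraMap ℚ[X] (RatFunc ℚ)) := by
    funext p
    exact IsScalarTower.algebraMap_apply ℚ[X] (RatFunc ℚ) Om p
  rw [h]
  exact (algebraMap (RatFunc ℚ) Om).injective.comp (RatFunc.algebraMap_injective ℚ)

theorem eval_tt (p : ℚ[X]) : eval₂ (algebraMap ℚ Om) tt p = algebraMap ℚ[X] Om p := by
  have h : (eval₂RingHom (algebraMap ℚ Om) tt) = algebraMap ℚ[X] Om := by
    apply Polynomial.ringHom_ext
    · intro q
      have h1 : ((eval₂RingHom (algebraMap ℚ Om) tt).comp C) =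
          (algebraMap ℚ[X] Om).comp (C : ℚ →+* ℚ[X]) := Subsingleton.elim _ _
      exact RingHom.congr_fun h1 q
    · simp [tt]
  exact RingHom.congr_fun h p

theorem tt_trans : Transcendental ℚ tt := by
  rw [transcendental_iff]
  intro p hp
  have h1 : algebraMap ℚ[X] Om p = 0 := by
    rw [← eval_tt p]
    exact hp
  exact inj_alg (by rw [h1, map_zero])

theorem zph_inj (K : Type) [Field K] [NumberField K] (φ : K →+* Om) :
    Function.Injective (zph φ) := by
  letI : Algebra K Om := φ.toAlgebra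
  haveI : IsScalarTower ℚ K Om := IsScalarTower.of_algebraMap_eq' (Subsingleton.elim _ _)
  rw [injective_iff_map_eq_zero]
  intro F hF
  by_contra hne
  have h1 : IsAlgebraic K tt := by
    refine ⟨F.map (algebraMap (𝓞 K) K), ?_, ?_⟩
    · intro h0
      apply hne
      exact Polynomial.map_injective _ (RingOfIntegers.coe_injective) (by rw [h0, Polynomial.map_zero])
    · have h2 : aeval tt (F.map (algebraMap (𝓞 K) K)) =
          eval₂ (φ.comp (algebraMap (𝓞 K) K)) tt F := by
        rw [aeval_def, eval₂_map]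
        rfl
      rw [h2]
      exact hF
  have h3 : IsAlgebraic ℚ tt := h1.restrictScalars ℚ
  exact tt_trans h3

theorem frk : FrkStmt := by
  intro K _ _ φ
  have hinj := zph_inj K φ
  refine ⟨hinj, ?_⟩
  intro x
  constructor
  · intro hx
    let ψ : FractionRing (𝓞 K)[X] →+* Om := IsFractionRing.lift hinj
    have hψ : ∀ F : (𝓞 K)[X], ψ (algebraMap _ _ F) = zph φ F :=
      fun F => IsFractionRing.lift_algebraMap hinj F
    have hz : ∀ F : (𝓞 K)[X], zph φ F ∈ ψ.fieldRange := fun F => ⟨algebraMap _ _ F, hψ F⟩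
    have htt : tt ∈ ψ.fieldRange := by
      have h1 : zph φ X = tt := by simp [zph]
      rw [← h1]
      exact hz X
    have hpol : ∀ p : ℚ[X], algebraMap ℚ[X] Om p ∈ ψ.fieldRange := by
      intro p
      rw [← eval_tt p, eval₂_eq_sum_range]
      refine sum_mem ?_
      intro i _
      refine mul_mem ?_ (pow_mem htt i)
      rw [eq_ratCast]
      exact SubfieldClass.ratCast_mem _ _
    have hmem : ∀ r : RatFunc ℚ, algebraMap (RatFunc ℚ) Om r ∈ ψ.fieldRange := by
      intro r
      obtain ⟨p, q, hq, hr⟩ := IsFractionRing.div_surjective (A := ℚ[X]) r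
      rw [← hr, map_div₀, ← IsScalarTower.algebraMap_apply, ← IsScalarTower.algebraMap_apply]
      exact div_mem (hpol p) (hpol q)
    let L : IntermediateField (RatFunc ℚ) Om := ψ.fieldRange.toIntermediateField hmem
    have hle : IntermediateField.adjoin (RatFunc ℚ) (Set.range φ) ≤ L := by
      rw [IntermediateField.adjoin_le_iff]
      rintro _ ⟨c, rfl⟩
      obtain ⟨a, b, hb, hc⟩ := IsFractionRing.div_surjective (A := 𝓞 K) c
      have h1 : ∀ a : 𝓞 K, zph φ (C a) = φ (algebraMap (𝓞 K) K a) := by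
        intro a
        simp [zph]
      have h2 : φ c = zph φ (C a) / zph φ (C b) := by
        rw [h1, h1, ← map_div₀, hc]
      change φ c ∈ ψ.fieldRange
      rw [h2]
      exact div_mem (hz _) (hz _)
    have hxL : x ∈ ψ.fieldRange := hle hx
    obtain ⟨y, hy⟩ := hxL
    obtain ⟨F, G, hG, hFG⟩ := IsFractionRing.div_surjective (A := (𝓞 K)[X]) y
    refine ⟨F, G, nonZeroDivisors.ne_zero hG, ?_⟩
    rw [← hy, ← hFG, map_div₀, hψ, hψ]
  · rintro ⟨F, G, -, rfl⟩
    have hz : ∀ F : (𝓞 K)[X], zph φ F ∈ IntermediateField.adjoin (RatFunc ℚ) (Set.range φ) := by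
      intro F
      have h1 : zph φ F = eval₂ (φ.comp (algebraMap (𝓞 K) K)) tt F := rfl
      rw [h1, eval₂_eq_sum_range]
      refine sum_mem ?_
      intro i _
      refine mul_mem ?_ (pow_mem ?_ i)
      · exact IntermediateField.subset_adjoin _ _ ⟨_, rfl⟩
      · rw [tt_eq]
        exact IntermediateField.algebraMap_mem _ _
    exact div_mem (hz F) (hz G)

end Pool.Agent.HIK.H80
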